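import Pool.Agent.H48.T3.Defs

/-!
# SX (MP_b39724_nt): Malle's conjecture for `S_4` in degree 6 over every number field containing `ζ_12`. Definitions (complete)

Text: think 1370 (helper67), 1379 (helper77) and the master text (think, helper67). `K ⊂ QBar` is a number field which contains `ζ_12` (so it is
totally complex). `S` is a finite set of primes of `K` which contains the primes over 2 and 3.

* `Cu K`: a cubic extension `F` of `K` in `QBar` which is not Galois (every isomorphism class is counted three times). `c.D = |N disc(F/K)|`.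
* `c.np l`: number of the primes of `F` over `l`. `c.lam l = 2 ^ (np l - 1) - 1` (3, 1 or 0). `c.mu l = c.lam l - 1` (2, 0 or -1).
* `c.mq S Y = ∑_{q} ∏_{l ∈ q} lam l`, over the finite sets `q` of primes outside `S` with `nr q ≤ Y`: the main term of one fibre.
* `LEq S Q c c'`: the fields have the same local type at the primes of `S`: the sets of embeddings are isomorphic as sets with an action of the
  decomposition group.
* `c.Ev l`: the nonempty sets `g` of primes over `l` with `∏_{P ∈ g} N P = (N l) ^ (even)`: the possible sets of the primes over `l` at which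
  the order of `a`, `N a` a square, is odd; their number is `lam l` (`l` not over 2, 3).
* `AQ K S`: a field `c` with a nontrivial quadratic ray class character `χ` of modulus `mS S 𝓞_F`, trivial on the ideals of `K`.
  `x.lp l = ∑_{g ∈ Ev l} ∏_{P ∈ g} χ(P)`, `x.sq Y = ∑_{q} ∏_{l ∈ q} x.lp l` (same `q` as in `mq`). `Cj`: conjugate pairs.

Interfaces (Props) between the chapters (`S` finite set of primes of `K`, `Q` a choice of primes of `𝓞 QBar` over the primes of `K`):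
* `WStat K` (chapter W): `∑_{D c ≤ R} selg(F) ≤ C R`.
* `MStat K S Q` (chapter M): the number of the fields of one local type at `S`, with weights `∏_{l ∈ q} mu l`, uniformly in `q`.
* `LFin K S Q` (chapter M): there are finitely many local types at `S`.
* `LS1`, `LS2` (chapter LS): sums of one character: power saving; log saving with few exceptions. `LS3`, `LS4`: the same for the main term,
  `Am c` the mean value. `LS5` (uses `MStat`): the mean of `Am c` over the fields of one type.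
-/

set_option autoImplicit false

open scoped NumberField Classical
open IsDedekindDomain H38.ML H63.MA Filter Topology

noncomputable section

namespace H67.SX

/-- a cubic extension of `K` in `QBar` which is not Galois -/
structure Cu (K : IntermediateField ℚ QBar) where
  F : IntermediateField K QBar
  deg : Module.finrank K F = 3
  non : ¬ IsGalois K F

variable {K : IntermediateField ℚ QBar} [NumberField K]

instance (c : Cu K) : FiniteDimensional K c.F :=
  Module.finite_of_finrank_pos (by rw [c.deg]; norm_num)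

instance (c : Cu K) : NumberField c.F := NumberField.of_module_finite K c.F

/-- the absolute norm of the relative discriminant -/
def Cu.D (c : Cu K) : ℝ := (H38.ML.relDisc K c.F : ℝ)

/-- the number of the primes of `F` over `l` -/
def Cu.np (c : Cu K) (l : Pl K) : ℕ := {P : Pl c.F | Over P l}.ncard

/-- `3`, `1` or `0`: the number of the double transpositions fixed by the Frobenius element (the trace of the permutation representation) -/
def Cu.lam (c : Cu K) (l : Pl K) : ℝ := 2 ^ (c.np l - 1) - 1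

/-- `2`, `0` or `-1`: the trace of the two dimensional representation at the unramified primes -/
def Cu.mu (c : Cu K) (l : Pl K) : ℝ := c.lam l - 1

/-- the finite sets of primes of `K` outside `S` with product of the norms at most `Y` -/
def AS (K : IntermediateField ℚ QBar) [NumberField K] (S : Finset (Pl K)) (Y : ℝ) :
    Finset (Finset (Pl K)) := (AF K Y).filter fun q => ∀ l ∈ q, l ∉ S

/-- the main term of one fibre -/
def Cu.mq (c : Cu K) (S : Finset (Pl K)) (Y : ℝ) : ℝ := ∑ q ∈ AS K S Y, ∏ l ∈ q, c.lam l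

/-- the same local type at the primes of `S` -/
def LEq (S : Finset (Pl K)) (Q : DP K QBar) (c c' : Cu K) : Prop :=
  ∀ v ∈ S, ∃ e : (c.F →ₐ[K] QBar) ≃ (c'.F →ₐ[K] QBar), ∀ σ ∈ dec (K := K) (Q.P v),
    ∀ ι : c.F →ₐ[K] QBar, e ((σ : QBar →ₐ[K] QBar).comp ι) = (σ : QBar →ₐ[K] QBar).comp (e ι)

/-- the nonempty sets of primes over `l` whose product of norms is an even power of `N l` -/
def Cu.Ev (c : Cu K) (l : Pl K) : Set (Finset (Pl c.F)) :=
  {g | g.Nonempty ∧ (∀ P ∈ g, Over P l) ∧ ∃ k : ℕ, ∏ P ∈ g, nm P = nm l ^ (2 * k)}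

/-- the modulus -/
abbrev mF (S : Finset (Pl K)) (F : IntermediateField K QBar) [NumberField F] : Ideal (𝓞 F) :=
  H57.LI.md (H48.T3.mS S) F

/-- a field with a nontrivial quadratic ray class character of modulus `mF S F` which is trivial on the ideals of `K` -/
structure AQ (K : IntermediateField ℚ QBar) [NumberField K] (S : Finset (Pl K)) where
  c : Cu K
  χ : RC c.F (mF S c.F)
  quad : ∀ I, I ≠ ⊥ → IsCoprime I (mF S c.F) → χ.χ I = 1 ∨ χ.χ I = -1
  triv : ∀ J : Ideal (𝓞 K), J ≠ ⊥ → IsCoprime J (H48.T3.mS S) → χ.χ (H57.LI.md J c.F) = 1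
  non : χ.Non

variable {S : Finset (Pl K)}

/-- the sum of the values of the character over the possible parities at `l` -/
def AQ.lp (x : AQ K S) (l : Pl K) : ℝ :=
  ∑ᶠ g ∈ x.c.Ev l, ∏ P ∈ g, (x.χ.χ P.asIdeal).re

/-- the sum of one character -/
def AQ.sq (x : AQ K S) (Y : ℝ) : ℝ := ∑ q ∈ AS K S Y, ∏ l ∈ q, x.lp l

/-- CHAPTER W -/
def WStat (K : IntermediateField ℚ QBar) [NumberField K] : Prop :=
  ∃ C : ℝ, 1 ≤ C ∧ ∀ R : ℝ, 1 ≤ R → {c : Cu K | c.D ≤ R}.Finite ∧
    ∀ T : Finset (Cu K), (∀ c ∈ T, c.D ≤ R) → ∑ c ∈ T, (H48.KV.selg c.F : ℝ) ≤ C * R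

/-- CHAPTER M -/
def MStat (K : IntermediateField ℚ QBar) [NumberField K] (S : Finset (Pl K)) (Q : DP K QBar) :
    Prop :=
  ∀ c₀ : Cu K, ∃ (κ : ℝ) (m : Pl K → ℝ) (C : ℝ) (A : ℕ) (δ : ℝ), 0 < κ ∧ 1 ≤ C ∧ 0 < δ ∧ δ ≤ 1 ∧
    (∀ l, |m l| ≤ C / nm l) ∧ (∀ l, -1 ≤ m l) ∧
    ∀ q : Finset (Pl K), (∀ l ∈ q, l ∉ S) → ∀ R : ℝ, 1 ≤ R →
      |(∑ᶠ c ∈ {c : Cu K | LEq S Q c₀ c ∧ c.D ≤ R}, ∏ l ∈ q, c.mu l) - κ * R * ∏ l ∈ q, m l| ≤
        C * nr q ^ A * R ^ (1 - δ)

/-- CHAPTER M: finitely many local types -/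
def LFin (K : IntermediateField ℚ QBar) [NumberField K] (S : Finset (Pl K)) (Q : DP K QBar) :
    Prop := ∃ T : Finset (Cu K), ∀ c : Cu K, ∃ c₀ ∈ T, LEq S Q c₀ c

/-- CHAPTER LS: power saving for one character -/
def LS1 (K : IntermediateField ℚ QBar) [NumberField K] (S : Finset (Pl K)) : Prop :=
  ∃ (C : ℝ) (A : ℕ) (δ : ℝ), 1 ≤ C ∧ 0 < δ ∧ δ ≤ 1 ∧ ∀ x : AQ K S, ∀ Y : ℝ, 1 ≤ Y →
    |x.sq Y| ≤ C * x.c.D ^ A * Y ^ (1 - δ)

/-- CHAPTER LS: few exceptions -/
def LS2 (K : IntermediateField ℚ QBar) [NumberField K] (S : Finset (Pl K)) : Prop :=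
  ∀ (A₁ B : ℕ) (ε : ℝ), 0 < ε → ∃ R₀ : ℝ, 3 ≤ R₀ ∧ ∀ R : ℝ, R₀ ≤ R → ∀ J : Set (AQ K S),
    (∀ x ∈ J, x.c.D ≤ R ^ A₁ ∧ ∃ Y : ℝ, Real.exp (Real.log (Real.log R) ^ 3) ≤ Y ∧
      Y / Real.log R ^ B < |x.sq Y|) →
    J.Finite ∧ (J.ncard : ℝ) ≤ R ^ ε

/-- CHAPTER LS: the main term of one fibre: `Am` is the mean value -/
def LS3 (K : IntermediateField ℚ QBar) [NumberField K] (S : Finset (Pl K)) (Am : Cu K → ℝ) :
    Prop :=
  ∃ (C : ℝ) (A : ℕ) (δ : ℝ), 1 ≤ C ∧ 0 < δ ∧ δ ≤ 1 ∧ ∀ c : Cu K,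
    0 ≤ Am c ∧ Am c ≤ C * (1 + Real.log c.D) ^ 3 ∧
    ∀ Y : ℝ, 1 ≤ Y → |c.mq S Y - Am c * Y| ≤ C * c.D ^ A * Y ^ (1 - δ)

/-- CHAPTER LS: the main term, few exceptions -/
def LS4 (K : IntermediateField ℚ QBar) [NumberField K] (S : Finset (Pl K)) (Am : Cu K → ℝ) :
    Prop :=
  ∀ (A₁ B : ℕ) (ε : ℝ), 0 < ε → ∃ R₀ : ℝ, 3 ≤ R₀ ∧ ∀ R : ℝ, R₀ ≤ R → ∀ J : Set (Cu K),
    (∀ c ∈ J, c.D ≤ R ^ A₁ ∧ ∃ Y : ℝ, Real.exp (Real.log (Real.log R) ^ 3) ≤ Y ∧
      Y / Real.log R ^ B < |c.mq S Y - Am c * Y|) →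
    J.Finite ∧ (J.ncard : ℝ) ≤ R ^ ε

/-- CHAPTER LS: the mean of `Am` over the fields of one local type -/
def LS5 (K : IntermediateField ℚ QBar) [NumberField K] (S : Finset (Pl K)) (Q : DP K QBar)
    (Am : Cu K → ℝ) : Prop :=
  ∀ c₀ : Cu K, ∃ a : ℝ, 0 < a ∧
    Tendsto (fun R : ℝ => (∑ᶠ c ∈ {c : Cu K | LEq S Q c₀ c ∧ c.D ≤ R}, Am c) / R) atTop (𝓝 a)

end H67.SX
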