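import Pool.Agent.H67.SX.Fin
import Pool.Agent.H97.SXM.MstX

/-!
# SX: Malle's conjecture for `S_4` in degree 6 over every number field containing `ζ_12`
-/

set_option autoImplicit false

open scoped NumberField Classical
open IsDedekindDomain H38.ML H63.MA Filter Topology

noncomputable section

namespace H67.SX

theorem sx_main (K : IntermediateField ℚ QBar) [NumberField K] (ζ : K)
    (hζ : IsPrimitiveRoot ζ 12) (e : Fin 6 ≃ {s : Finset (Fin 4) // s.card = 2}) :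
    Spec.indG (H38.SE.G6 e) = 2 ∧ Spec.betaAll K QBar (H38.SE.G6 e) = 2 ∧
    (∀ B : ℝ, Spec.nK K QBar (H38.SE.G6 e) B ≠ ⊤) ∧
    ∃ C : ℝ, 0 < C ∧ Tendsto (fun B : ℝ => ((Spec.nK K QBar (H38.SE.G6 e) B).toNat : ℝ) /
      (B ^ (1 / (2 : ℝ)) * Real.log B)) atTop (𝓝 C) := by
  obtain ⟨h1, h2⟩ := H48.T3.i_of_12 hζ
  have htc : NumberField.IsTotallyComplex K := H48.T3.tc_i K (ζ ^ 3) h2
  refine sx_of_mstat K ζ hζ e fun S hS Q => H97.SXM.mstX K h1 S (fun l hl => hS l ?_) Q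
  have h3 : (((6 : ℕ).factorial : ℕ) : 𝓞 K) = 6 * 120 := by
    norm_num [Nat.factorial]
  rw [h3]
  exact Ideal.mul_mem_right _ _ hl

end H67.SX
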