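import Pool.Agent.H38.SE.Fin
import Pool.Agent.H88.SW.Main
import Pool.Agent.H57.SL.Lsx
import Pool.Agent.H1.SL.Ls2
import Pool.Agent.H48.SF.Ffm
import Pool.Agent.H77.MF.Lf
import Pool.Agent.H48.T3.Tcx
import Pool.Agent.H63.MC.CLkC

/-!
# SX: Malle's conjecture for `S_4` in degree 6 over every number field containing `ζ_12` (assembly from `MStat`)
-/

set_option autoImplicit false

open scoped NumberField Classical
open IsDedekindDomain H38.ML H63.MA Filter Topology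

noncomputable section

namespace H67.SX

theorem sx_of_mstat (K : IntermediateField ℚ QBar) [NumberField K] (ζ : K)
    (hζ : IsPrimitiveRoot ζ 12) (e : Fin 6 ≃ {s : Finset (Fin 4) // s.card = 2})
    (hM : ∀ S : Finset (Pl K), (∀ v : Pl K, (((6 : ℕ).factorial : ℕ) : 𝓞 K) ∈ v.asIdeal → v ∈ S) →
      ∀ Q : DP K QBar, MStat K S Q) :
    Spec.indG (H38.SE.G6 e) = 2 ∧ Spec.betaAll K QBar (H38.SE.G6 e) = 2 ∧
    (∀ B : ℝ, Spec.nK K QBar (H38.SE.G6 e) B ≠ ⊤) ∧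
    ∃ C : ℝ, 0 < C ∧ Tendsto (fun B : ℝ => ((Spec.nK K QBar (H38.SE.G6 e) B).toNat : ℝ) /
      (B ^ (1 / (2 : ℝ)) * Real.log B)) atTop (𝓝 C) := by
  obtain ⟨h1, h2⟩ := H48.T3.i_of_12 hζ
  have hi : MOne 2 K := ⟨ζ ^ 3, h2⟩
  have htc : H36.QA.TC K (Module.finrank ℚ K) := ⟨H48.T3.tc_i K (ζ ^ 3) h2, rfl⟩
  have hfin : {v : Pl K | (((6 : ℕ).factorial : ℕ) : 𝓞 K) ∈ v.asIdeal}.Finite :=
    finite_above (K := K) (by norm_num [Nat.factorial])
  obtain ⟨S, hSd⟩ : ∃ S : Finset (Pl K), S = hfin.toFinset := ⟨_, rfl⟩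
  have hS : ∀ v : Pl K, (((6 : ℕ).factorial : ℕ) : 𝓞 K) ∈ v.asIdeal → v ∈ S := by
    intro v hv
    rw [hSd]
    exact hfin.mem_toFinset.2 hv
  have hp : ∀ p : ℕ, p ∣ (6 : ℕ).factorial → ∀ v : Pl K, Above p v → v ∈ S := by
    rintro p ⟨m, hm⟩ v hv
    apply hS
    rw [hm, Nat.cast_mul]
    exact Ideal.mul_mem_right _ _ hv
  obtain ⟨Q⟩ := exists_DP K QBar
  have hL : LFin K S Q := H77.MF.lfin S Q
  have hMS := hM S hS Q
  obtain ⟨Am, h3, h4, h5⟩ := H57.SL.lsx K h1 S (hp 3 (by decide))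
  have hl1 := H1.SL.ls1 K Module.finrank_pos htc S (hp 2 (by decide))
  have hl2 := H1.SL.ls2 K Module.finrank_pos htc S (hp 2 (by decide))
  obtain ⟨C, hC, k, hk, hlim⟩ := H38.SE.sfin hi e S hS Q (H88.SW.wstat K) hL hl1 hl2 Am h3 h4
    (h5 Q hMS) (H48.SF.ffs hi S (hp 2 (by decide)) Q hL)
  refine ⟨H38.SE.indG6 e, H38.SE.beta6 e K,
    fun B h => ENat.natCast_ne_top (k B) ((hk B).symm.trans h), C, hC, hlim.congr fun B => ?_⟩
  have h : (Spec.nK K QBar (H38.SE.G6 e) B).toNat = k B :=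
    (congrArg ENat.toNat (hk B)).trans (ENat.toNat_natCast _)
  rw [h]

end H67.SX
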